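import Pool.Agent.Lib.MP_1067ad_gt.PU.Refine

set_option autoImplicit false

universe u

open Cardinal Set Order

namespace Pool.Agent.Lib.MP_1067ad_gt.PU

variable {A I : Type u} [LinearOrder I] [WellFoundedLT I]

/-- The conclusion of each case: a family of mutually orthogonal chains such that each member of the
ultrafilter is good for one of them. -/
def Chains (T : Setup A I) (p : Ultrafilter A) : Prop :=
  ∃ (𝓡 : Type u) (S : 𝓡 → I → Set A), (∀ R, Antitone (S R)) ∧
      (∀ R R', R ≠ R' → ∃ i i', #(S R i ∩ S R' i' : Set A) < #A) ∧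
      ∀ D ∈ p, ∃ R, Good T.al (S R) D

theorem compl_mem (p : Ultrafilter A) (hp : ∀ s ∈ p, #s = #A) {s : Set A} (hs : #s < #A) :
    sᶜ ∈ p := by
  rw [Ultrafilter.compl_mem_iff_notMem]
  intro h
  exact absurd (hp s h) hs.ne

theorem split (hA : ℵ₀ ≤ #A) (p : Ultrafilter A) (hp : ∀ s ∈ p, #s = #A) {D : Set A}
    (hD : D ∈ p) : ∃ D' ∈ p, D' ⊆ D ∧ #A ≤ #(D \ D' : Set A) := by
  have hinf : D.Infinite := by
    rw [← Set.infinite_coe_iff, infinite_iff, hp D hD]
    exact hA
  obtain ⟨t, u, htu, hd, hc⟩ := hinf.exists_union_disjoint_cardinal_eq_of_infinite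
  have hD2 : #D ≤ #t + #u := by
    rw [← htu]; exact mk_union_le _ _
  have ht : #A ≤ #t := by
    by_contra hlt
    push Not at hlt
    have : #t + #u < #A := by
      rw [← hc]
      exact add_lt_of_lt hA hlt hlt
    rw [hp D hD] at hD2
    exact absurd this (not_lt.2 hD2)
  have hu : #A ≤ #u := by rw [← hc]; exact ht
  rw [← htu, Ultrafilter.union_mem_iff] at hD
  rcases hD with h | h
  · refine ⟨t, h, by rw [← htu]; exact subset_union_left, ?_⟩
    refine hu.trans (mk_le_mk_of_subset ?_)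
    intro x hx
    exact ⟨by rw [← htu]; exact Or.inr hx, fun hxt => disjoint_left.1 hd hxt hx⟩
  · refine ⟨u, h, by rw [← htu]; exact subset_union_right, ?_⟩
    refine ht.trans (mk_le_mk_of_subset ?_)
    intro x hx
    exact ⟨by rw [← htu]; exact Or.inl hx, fun hxu => disjoint_left.1 hd hx hxu⟩

/-- Countable cofinality: a maximal tower in the ultrafilter. -/
theorem case_omega (T : Setup A I) (p : Ultrafilter A) (hp : ∀ s ∈ p, #s = #A)
    (hI : #I = ℵ₀) : Chains T p := by
  classical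
  have hA := T.hA
  obtain ⟨W, _, _, B, hB1, hB2, hB3⟩ := exists_maximal_chain (Y := Set A) (fun D => D ∈ p)
    (fun D D' => #(D' \ D : Set A) < #A ∧ #A ≤ #(D \ D' : Set A)) (by
      intro D hD h
      have := h.2
      simp only [sdiff_self, Set.bot_eq_empty, mk_eq_zero] at this
      exact absurd (aleph0_pos.trans_le hA) (not_lt.2 this))
  -- no pseudo-intersection in `p`
  have key : ∀ D ∈ p, ∃ w, #A ≤ #(D \ B w : Set A) := by
    intro D hD
    by_contra hcon
    push Not at hcon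
    obtain ⟨D', hD'1, hD'2, hD'3⟩ := split hA p hp hD
    apply hB3
    refine ⟨D', hD'1, fun w => ⟨?_, ?_⟩⟩
    · exact small_mono (diff_subset_diff_left hD'2) (hcon w)
    · by_contra hlt
      push Not at hlt
      have h1 : D \ D' ⊆ (B w \ D') ∪ (D \ B w) := by
        rintro x ⟨hx1, hx2⟩
        by_cases h1 : x ∈ B w
        · exact Or.inl ⟨h1, hx2⟩
        · exact Or.inr ⟨hx1, h1⟩
      exact absurd (small_mono h1 (small_union hA hlt (hcon w))) (not_lt.2 hD'3)
  have hBmono : ∀ ν ν', ν ≤ ν' → #(B ν' \ B ν : Set A) < #A := by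
    intro ν ν' h
    rcases h.eq_or_lt with h | h
    · rw [h]
      simp only [sdiff_self, Set.bot_eq_empty, mk_eq_zero]
      exact aleph0_pos.trans_le hA
    · exact (hB2 ν' ν h).1
  have hWne : Nonempty W := by
    by_contra hne
    rw [not_nonempty_iff] at hne
    exact hB3 ⟨Set.univ, Filter.univ_mem, fun w => (hne.false w).elim⟩
  have hWmax : NoMaxOrder W := by
    refine ⟨fun w => ?_⟩
    obtain ⟨w', hw'⟩ := key (B w) (hB1 w)
    refine ⟨w', ?_⟩
    by_contra hle
    exact absurd (hBmono w' w (not_lt.1 hle)) (not_lt.2 hw')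
  refine tower_case T p W ?_ B hBmono ?_
  · intro X hX
    rw [hI, lt_aleph0_iff_set_finite] at hX
    obtain ⟨b, hb⟩ := hX.bddAbove
    obtain ⟨w, hw⟩ := exists_gt b
    exact ⟨w, fun x hx => (hb hx).trans_lt hw⟩
  · intro D hD ξ
    exact key _ (Filter.inter_mem hD (hB1 ξ))

/-- First case for uncountable cofinality. -/
theorem case_one (T : Setup A I) (p : Ultrafilter A) (u : A → I)
    (hu : ∀ i, {x | i < u x} ∈ p)
    (hu2 : ∀ D ∈ p, ∃ i, #A ≤ #{x | x ∈ D ∧ u x ≤ i}) : Chains T p := by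
  refine tower_case T p I T.bdd (fun i => {x | i < u x}) ?_ ?_
  · intro i j hij
    have : {x | j < u x} \ {x | i < u x} = ∅ := by
      rw [diff_eq_empty]
      intro x hx
      exact hij.trans_lt hx
    rw [this, mk_eq_zero]
    exact aleph0_pos.trans_le T.hA
  · intro D hD ξ
    obtain ⟨i, hi⟩ := hu2 _ (Filter.inter_mem hD (hu ξ))
    refine ⟨i, hi.trans (mk_le_mk_of_subset ?_)⟩
    intro x hx
    exact ⟨hx.1, by simpa using hx.2⟩

theorem noMax (T : Setup A I) (i : I) : ∃ j, i < j := by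
  obtain ⟨j, hj⟩ := T.bdd {i} (by
    rw [mk_singleton]
    exact one_lt_aleph0.trans_le T.infI)
  exact ⟨j, hj i rfl⟩

/-- Closure points of a function. -/
def Cl (h : I → I) : Set I := {i | ∀ j < i, h j < i}

/-- Second case for uncountable cofinality: there is a least unbounded function. -/
theorem case_two (T : Setup A I) (p : Ultrafilter A) (hp : ∀ s ∈ p, #s = #A)
    (u : A → I) (hu : ∀ i, {x | i < u x} ∈ p)
    (hmin : ∀ v : A → I, (∀ i, {x | i < v x} ∈ p) → {x | u x ≤ v x} ∈ p)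
    (D0 : Set A) (hD0 : D0 ∈ p) (hsm : ∀ i, #{x | x ∈ D0 ∧ u x ≤ i} < #A) : Chains T p := by
  classical
  have hA := T.hA
  -- closure points are in the image ultrafilter
  have hcl : ∀ h : I → I, {x | u x ∈ Cl h} ∈ p := by
    intro h
    by_contra hnot
    have hc : {x | u x ∈ Cl h}ᶜ ∈ p := (Ultrafilter.compl_mem_iff_notMem).2 hnot
    have hex : ∀ x, ∃ y : I, (u x ∉ Cl h → y < u x ∧ u x ≤ h y ∧ ∀ z < y, h z < u x) := by
      intro x
      by_cases hx : u x ∈ Cl h
      · exact ⟨u x, fun h => absurd hx h⟩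
      · have hne : {y | y < u x ∧ u x ≤ h y}.Nonempty := by
          simp only [Cl, mem_setOf_eq] at hx
          push Not at hx
          exact hx
        refine ⟨(wellFounded_lt (α := I)).min _ hne, fun _ => ?_⟩
        have h1 := (wellFounded_lt (α := I)).min_mem _ hne
        refine ⟨h1.1, h1.2, ?_⟩
        intro z hz
        by_contra hzz
        exact (wellFounded_lt (α := I)).not_lt_min _
          (show z ∈ {y | y < u x ∧ u x ≤ h y} from ⟨hz.trans h1.1, not_lt.1 hzz⟩) hz
    choose v hv using hex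
    have hv1 : ∀ i, {x | i < v x} ∈ p := by
      intro i
      obtain ⟨m, hm⟩ := T.bdd (h '' Iic i) (mk_image_le.trans_lt (T.iic i))
      filter_upwards [hc, hu m] with x hx1 hx2
      obtain ⟨h1, h2, -⟩ := hv x hx1
      by_contra hlt
      have h3 : h (v x) < m := hm _ ⟨v x, not_lt.1 hlt, rfl⟩
      exact absurd (h2.trans_lt h3) (not_lt.2 (le_of_lt hx2))
    have h4 := hmin v hv1
    obtain ⟨x, hx⟩ := Filter.nonempty_of_mem (Filter.inter_mem h4 hc)
    exact absurd (hv x hx.2).1 (not_lt.2 hx.1)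
  -- an unbounded well-ordered family of functions
  have hNI : Nonempty (I → I) := ⟨id⟩
  obtain ⟨W, _, _, g, -, hg2, hg3⟩ := exists_maximal_chain (Y := I → I) (fun _ => True)
    (fun h h' => (∃ j0, ∀ j, j0 ≤ j → h j ≤ h' j) ∧ ¬ ∃ j0, ∀ j, j0 ≤ j → h' j ≤ h j) (by
      intro h _ hh
      have hIne : Nonempty I := by
        rw [← mk_ne_zero_iff]
        intro h0
        have := T.infI
        rw [h0] at this
        exact absurd this (not_le.2 aleph0_pos)
      exact hh.2 ⟨Classical.arbitrary I, fun _ _ => le_rfl⟩)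
  have hunb : ¬ ∃ h : I → I, ∀ w, ∃ j0, ∀ j, j0 ≤ j → g w j ≤ h j := by
    rintro ⟨h, hh⟩
    choose s hs using noMax T
    apply hg3
    refine ⟨fun j => s (h j), trivial, fun w => ⟨?_, ?_⟩⟩
    · obtain ⟨j0, hj0⟩ := hh w
      exact ⟨j0, fun j hj => (hj0 j hj).trans (hs _).le⟩
    · rintro ⟨j1, hj1⟩
      obtain ⟨j0, hj0⟩ := hh w
      have h1 := hj1 (max j0 j1) (le_max_right _ _)
      have h2 := hj0 (max j0 j1) (le_max_left _ _)
      exact absurd (hs (h (max j0 j1))) (not_lt.2 (h1.trans h2))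
  have hmono : ∀ w w', w ≤ w' → ∃ j0, ∀ j, j0 ≤ j → g w j ≤ g w' j := by
    intro w w' h
    rcases h.eq_or_lt with h | h
    · have hIne : Nonempty I := by
        rw [← mk_ne_zero_iff]
        intro h0
        have := T.infI
        rw [h0] at this
        exact absurd this (not_le.2 aleph0_pos)
      exact ⟨Classical.arbitrary I, fun j _ => by rw [h]⟩
    · exact (hg2 w' w h).1
  have hBs : ∀ ν ν' : W, ν ≤ ν' → #((D0 ∩ {x | u x ∈ Cl (g ν')}) \ (D0 ∩ {x | u x ∈ Cl (g ν)}) :
      Set A) < #A := by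
    intro ν ν' h
    obtain ⟨j0, hj0⟩ := hmono ν ν' h
    obtain ⟨m, hm⟩ := T.bdd (g ν '' Iic j0) (mk_image_le.trans_lt (T.iic j0))
    refine small_mono ?_ (hsm m)
    rintro x ⟨⟨hx1, hx2⟩, hx3⟩
    refine ⟨hx1, ?_⟩
    have hx4 : ¬ (u x ∈ Cl (g ν)) := fun h => hx3 ⟨hx1, h⟩
    simp only [Cl, mem_setOf_eq] at hx2 hx4
    push Not at hx4
    obtain ⟨j, hj1, hj2⟩ := hx4
    by_cases hjj : j0 ≤ j
    · exact absurd ((hj0 j hjj).trans_lt (hx2 j hj1)) (not_lt.2 hj2)
    · have h1 : g ν j < m := hm _ ⟨j, (not_le.1 hjj).le, rfl⟩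
      exact (hj2.trans_lt h1).le
  refine tower_case T p W ?_ (fun w => D0 ∩ {x | u x ∈ Cl (g w)}) hBs ?_
  · intro X hX
    by_contra hcon
    push Not at hcon
    apply hunb
    have hex : ∀ j : I, ∃ m, ∀ w ∈ X, g w j < m := by
      intro j
      obtain ⟨m, hm⟩ := T.bdd ((fun w => g w j) '' X) (mk_image_le.trans_lt hX)
      exact ⟨m, fun w hw => hm _ ⟨w, hw, rfl⟩⟩
    choose h hh using hex
    refine ⟨h, fun w => ?_⟩
    obtain ⟨w', hw'1, hw'2⟩ := hcon w
    obtain ⟨j0, hj0⟩ := hmono w w' hw'2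
    exact ⟨j0, fun j hj => (hj0 j hj).trans (hh j w' hw'1).le⟩
  · intro D hD ξ
    by_contra hcon
    push Not at hcon
    set E : Set A := D ∩ (D0 ∩ {x | u x ∈ Cl (g ξ)}) with hE
    have hEp : E ∈ p := Filter.inter_mem hD (Filter.inter_mem hD0 (hcl _))
    have hex : ∀ j : I, ∃ i, T.al j < #{x | x ∈ E ∧ j < u x ∧ u x ≤ i} := by
      intro j
      by_contra hno
      push Not at hno
      have h1 : E ∩ {x | j < u x} = ⋃ i : I, {x | x ∈ E ∧ j < u x ∧ u x ≤ i} := by
        ext x
        simp only [mem_inter_iff, mem_setOf_eq, mem_iUnion]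
        constructor
        · rintro ⟨h1, h2⟩
          exact ⟨u x, h1, h2, le_rfl⟩
        · rintro ⟨i, h1, h2, -⟩
          exact ⟨h1, h2⟩
      have h2 : #(E ∩ {x | j < u x} : Set A) ≤ T.al j := by
        rw [h1]
        exact iUnion_le (infal T j) (T.ge j) _ hno
      rw [hp _ (Filter.inter_mem hEp (hu j))] at h2
      exact absurd (T.lt j) (not_lt.2 h2)
    choose h hh using hex
    apply hunb
    refine ⟨h, fun w => ?_⟩
    obtain ⟨i, hi⟩ := T.cofinal _ (hcon w)
    refine ⟨i, fun j hj => ?_⟩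
    have h1 : ¬ ({x | x ∈ E ∧ j < u x ∧ u x ≤ h j} ⊆
        E \ (D0 ∩ {x | u x ∈ Cl (g w)})) := by
      intro hsub
      have h2 := mk_le_mk_of_subset hsub
      have h3 := (hi.trans_le (T.mono hj)).trans (hh j)
      exact absurd h3 (not_lt.2 h2)
    rw [not_subset] at h1
    obtain ⟨x, ⟨hx1, hx2, hx3⟩, hx4⟩ := h1
    have hx5 : u x ∈ Cl (g w) := by
      by_contra hx6
      exact hx4 ⟨hx1, fun hx7 => hx6 hx7.2⟩
    exact (hx5 j hx2).le.trans hx3

/-- Third case: a point-finite family of `#I` many members of the ultrafilter. -/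
theorem case_three (T : Setup A I) (p : Ultrafilter A) (hp : ∀ s ∈ p, #s = #A)
    (hI : ℵ₀ < #I) (X : I → Set A) (hX : ∀ i, X i ∈ p) (hfin : ∀ x, {i | x ∈ X i}.Finite) :
    Chains T p := by
  classical
  have hA := T.hA
  refine ⟨Finset I, fun R i => {x | ∀ j < i, (x ∈ X j ↔ j ∈ R)}, ?_, ?_, ?_⟩
  · intro R i i' hii' x hx j hj
    exact hx j (hj.trans_le hii')
  · intro R R' hne
    obtain ⟨j, hj⟩ : ∃ j, ¬ (j ∈ R ↔ j ∈ R') := by
      by_contra hcon
      push Not at hcon
      exact hne (Finset.ext hcon)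
    obtain ⟨i, hi⟩ := noMax T j
    refine ⟨i, i, ?_⟩
    have : ({x | ∀ j < i, (x ∈ X j ↔ j ∈ R)} ∩ {x | ∀ j < i, (x ∈ X j ↔ j ∈ R')} : Set A) = ∅ := by
      rw [eq_empty_iff_forall_notMem]
      rintro x ⟨hx1, hx2⟩
      exact hj ((hx1 j hi).symm.trans (hx2 j hi))
    rw [this, mk_eq_zero]
    exact aleph0_pos.trans_le hA
  · intro D hD
    by_contra hcon
    push Not at hcon
    simp only [Good] at hcon
    push Not at hcon
    choose r hr using hcon
    -- closure step
    have hstep : ∀ d : I, ∃ m, d < m ∧ ∀ R : Finset I, (∀ j ∈ R, j ≤ d) → r R < m := by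
      intro d
      have hcard : #({R : Finset I | ∀ j ∈ R, j ≤ d}) < #I := by
        have h1 : #({R : Finset I | ∀ j ∈ R, j ≤ d}) ≤ #(Finset (Iic d)) := by
          apply mk_le_of_injective (f := fun R : {R : Finset I | ∀ j ∈ R, j ≤ d} =>
            (R.1.subtype (fun j => j ∈ Iic d)))
          intro R R' h
          apply Subtype.ext
          have h2 := congrArg (fun s => s.map (Function.Embedding.subtype _)) h
          simp only [Finset.subtype_map] at h2
          have e1 : R.1.filter (fun j => j ∈ Iic d) = R.1 :=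
            Finset.filter_true_of_mem (fun j hj => R.2 j hj)
          have e2 : R'.1.filter (fun j => j ∈ Iic d) = R'.1 :=
            Finset.filter_true_of_mem (fun j hj => R'.2 j hj)
          rw [e1, e2] at h2
          exact h2
        refine h1.trans_lt ?_
        by_cases hf : Finite (Iic d)
        · have : Finite (Finset (Iic d)) := inferInstance
          exact (lt_aleph0_of_finite _).trans hI
        · have : Infinite (Iic d) := not_finite_iff_infinite.1 hf
          rw [mk_finset_of_infinite]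
          exact T.iic d
      obtain ⟨m, hm⟩ := T.bdd ((r '' {R : Finset I | ∀ j ∈ R, j ≤ d}) ∪ {d}) (by
        refine (mk_union_le _ _).trans_lt (add_lt_of_lt T.infI ?_ ?_)
        · exact mk_image_le.trans_lt hcard
        · rw [mk_singleton]; exact one_lt_aleph0.trans_le T.infI)
      exact ⟨m, hm d (Or.inr rfl), fun R hR => hm _ (Or.inl ⟨R, hR, rfl⟩)⟩
    choose s hs1 hs2 using hstep
    have hIne : Nonempty I := by
      rw [← mk_ne_zero_iff]
      intro h0
      rw [h0] at hI
      exact absurd hI not_lt_zero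
    let δ : ℕ → I := fun n => s^[n] (Classical.arbitrary I)
    have hδs : ∀ n, δ (n + 1) = s (δ n) := fun n => Function.iterate_succ_apply' _ _ _
    have hδmono : StrictMono δ := strictMono_nat_of_lt_succ (fun n => by
      rw [hδs]; exact hs1 _)
    have hne : {i | ∀ n, δ n < i}.Nonempty := by
      obtain ⟨m, hm⟩ := T.bdd (range δ) (by
        refine lt_of_le_of_lt ?_ hI
        exact mk_le_aleph0_iff.2 (countable_range δ).to_subtype)
      exact ⟨m, fun n => hm _ ⟨n, rfl⟩⟩
    let e := (wellFounded_lt (α := I)).min _ hne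
    have he1 : ∀ n, δ n < e := (wellFounded_lt (α := I)).min_mem _ hne
    have he2 : ∀ j < e, ∃ n, j ≤ δ n := by
      intro j hj
      by_contra hno
      push Not at hno
      exact (wellFounded_lt (α := I)).not_lt_min _ (show j ∈ {i | ∀ n, δ n < i} from hno) hj
    have hcl : ∀ R : Finset I, (∀ j ∈ R, j < e) → r R < e := by
      intro R hR
      have : ∃ n, ∀ j ∈ R, j ≤ δ n := by
        have h1 : ∀ j : R, ∃ n, (j : I) ≤ δ n := fun j => he2 j (hR j j.2)
        choose n hn using h1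
        refine ⟨Finset.univ.sup n, fun j hj => ?_⟩
        exact (hn ⟨j, hj⟩).trans (hδmono.monotone (Finset.le_sup (Finset.mem_univ _)))
      obtain ⟨n, hn⟩ := this
      have h2 := hs2 (δ n) R hn
      rw [← hδs] at h2
      exact h2.trans (he1 _)
    obtain ⟨e', he'⟩ := noMax T e
    have hcov : D ∩ X e ⊆ ⋃ R : {R : Finset I // ∀ j ∈ R, j < e},
        ((D ∩ {x | ∀ j < r R.1, (x ∈ X j ↔ j ∈ R.1)}) \ {x | ∀ j < e', (x ∈ X j ↔ j ∈ R.1)}) := by
      rintro x ⟨hx1, hx2⟩
      rw [mem_iUnion]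
      let R : Finset I := (hfin x).toFinset.filter (fun j => j < e)
      have hR : ∀ j, j ∈ R ↔ (x ∈ X j ∧ j < e) := by
        intro j
        simp [R]
      refine ⟨⟨R, fun j hj => ((hR j).1 hj).2⟩, ⟨hx1, ?_⟩, ?_⟩
      · intro j hj
        have hje : j < e := hj.trans (hcl R (fun j hj => ((hR j).1 hj).2))
        rw [hR]
        exact ⟨fun h => ⟨h, hje⟩, fun h => h.1⟩
      · intro hx3
        have h1 := (hx3 e he').1 hx2
        exact lt_irrefl e ((hR e).1 h1).2
    have hle : #(D ∩ X e : Set A) ≤ T.al e' := by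
      refine (mk_le_mk_of_subset hcov).trans (iUnion_le (infal T e') ?_ _ ?_)
      · refine le_trans ?_ (T.ge e')
        have h1 : #{R : Finset I // ∀ j ∈ R, j < e} ≤ #(Finset I) := mk_subtype_le _
        have : Infinite I := infinite_iff.2 T.infI
        rw [mk_finset_of_infinite] at h1
        exact h1
      · intro R
        exact hr R.1 e' ((hcl R.1 R.2).le.trans he'.le)
    rw [hp _ (Filter.inter_mem hD (hX e))] at hle
    exact absurd (T.lt e') (not_lt.2 hle)

/-- The point-finite family. -/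
theorem exists_pointfinite (T : Setup A I) (p : Ultrafilter A) (hp : ∀ s ∈ p, #s = #A)
    (h1 : ∀ u : A → I, (∀ i, {x | i < u x} ∈ p) →
      ∃ D ∈ p, ∀ i, #{x | x ∈ D ∧ u x ≤ i} < #A)
    (h2 : ∀ u : A → I, (∀ i, {x | i < u x} ∈ p) →
      ∃ v : A → I, (∀ i, {x | i < v x} ∈ p) ∧ {x | u x ≤ v x} ∉ p) :
    ∃ X : I → Set A, (∀ i, X i ∈ p) ∧ ∀ x, {i | x ∈ X i}.Finite := by
  classical
  have hA := T.hA
  have hIne : Nonempty I := by
    rw [← mk_ne_zero_iff]
    intro h0
    have := T.infI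
    rw [h0] at this
    exact absurd this (not_le.2 aleph0_pos)
  obtain ⟨f, hf1, hf2⟩ := exists_rec (I := I) (Y := (A → I) × Set A)
    (fun _ y => y.2 ∈ p ∧ ∀ i, #{x | x ∈ y.2 ∧ y.1 x ≤ i} < #A)
    (fun _ y _ y' => ∀ x ∈ y.2, x ∈ y'.2 → y'.1 x < y.1 x) (by
      intro i g hg1 _
      have hne : ∀ x, {y : I | y = T.rk x ∨ ∃ j < i, x ∈ (g j).2 ∧ y = (g j).1 x}.Nonempty :=
        fun x => ⟨T.rk x, Or.inl rfl⟩
      let hm : A → I := fun x => (wellFounded_lt (α := I)).min _ (hne x)
      have hm1 : ∀ x, hm x = T.rk x ∨ ∃ j < i, x ∈ (g j).2 ∧ hm x = (g j).1 x :=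
        fun x => (wellFounded_lt (α := I)).min_mem _ (hne x)
      have hm2 : ∀ x, ∀ j < i, x ∈ (g j).2 → hm x ≤ (g j).1 x := by
        intro x j hj hx
        by_contra hlt
        exact (wellFounded_lt (α := I)).not_lt_min _
          (show (g j).1 x ∈ {y : I | y = T.rk x ∨ ∃ j < i, x ∈ (g j).2 ∧ y = (g j).1 x} from
            Or.inr ⟨j, hj, hx, rfl⟩) (not_le.1 hlt)
      have hmsm : ∀ k, #{x | hm x ≤ k} < #A := by
        intro k
        have hsub : {x | hm x ≤ k} ⊆ {x | T.rk x ≤ k} ∪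
            ⋃ j : Iio i, {x | x ∈ (g j).2 ∧ (g j).1 x ≤ k} := by
          intro x hx
          rcases hm1 x with h | ⟨j, hj, hx2, h⟩
          · left
            show T.rk x ≤ k
            rw [← h]; exact hx
          · right
            rw [mem_iUnion]
            exact ⟨⟨j, hj⟩, hx2, by rw [← h]; exact hx⟩
        refine small_mono hsub (small_union hA ((T.rk_le k).trans_lt (T.lt k)) ?_)
        apply small_iUnion hA
        · exact ((mk_le_mk_of_subset Iio_subset_Iic_self).trans_lt (T.iic i)).trans_eq T.mkI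
        · intro j
          exact (hg1 j j.2).2 k
      have hmu : ∀ k, {x | k < hm x} ∈ p := by
        intro k
        have := compl_mem p hp (hmsm k)
        convert this using 1
        ext x
        simp
      obtain ⟨v, hv1, hv2⟩ := h2 hm hmu
      have hv3 : {x | v x < hm x} ∈ p := by
        have := (Ultrafilter.compl_mem_iff_notMem).2 hv2
        convert this using 1
        ext x
        simp
      obtain ⟨D, hD1, hD2⟩ := h1 v hv1
      refine ⟨(v, D ∩ {x | v x < hm x}), ⟨Filter.inter_mem hD1 hv3, ?_⟩, ?_⟩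
      · intro k
        refine small_mono ?_ (hD2 k)
        rintro x ⟨hx1, hx2⟩
        exact ⟨hx1.1, hx2⟩
      · intro j hj x hx1 hx2
        exact lt_of_lt_of_le hx2.2 (hm2 x j hj hx1))
  refine ⟨fun i => (f i).2, fun i => (hf1 i).1, ?_⟩
  intro x
  rw [← Set.finite_coe_iff]
  have : WellFoundedGT {i | x ∈ (f i).2} := by
    refine ⟨?_⟩
    have hwf : WellFounded (InvImage (· < ·) (fun i : {i | x ∈ (f i).2} => (f i).1 x)) :=
      InvImage.wf _ (wellFounded_lt (α := I))
    refine Subrelation.wf ?_ hwf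
    intro i j hij
    exact hf2 i.1 j.1 hij x j.2 i.2
  exact Finite.of_wellFoundedLT_wellFoundedGT _

/-- All cases together. -/
theorem chains (T : Setup A I) (p : Ultrafilter A) (hp : ∀ s ∈ p, #s = #A) : Chains T p := by
  rcases T.infI.eq_or_lt with hI | hI
  · exact case_omega T p hp hI.symm
  by_cases h1 : ∃ u : A → I, (∀ i, {x | i < u x} ∈ p) ∧
      ∀ D ∈ p, ∃ i, #A ≤ #{x | x ∈ D ∧ u x ≤ i}
  · obtain ⟨u, hu1, hu2⟩ := h1
    exact case_one T p u hu1 hu2
  push Not at h1
  by_cases h2 : ∃ u : A → I, (∀ i, {x | i < u x} ∈ p) ∧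
      ∀ v : A → I, (∀ i, {x | i < v x} ∈ p) → {x | u x ≤ v x} ∈ p
  · obtain ⟨u, hu1, hu2⟩ := h2
    obtain ⟨D0, hD0, hD1⟩ := h1 u hu1
    exact case_two T p hp u hu1 hu2 D0 hD0 hD1
  push Not at h2
  obtain ⟨X, hX1, hX2⟩ := exists_pointfinite T p hp h1 h2
  exact case_three T p hp hI X hX1 hX2

end Pool.Agent.Lib.MP_1067ad_gt.PU
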