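import Mathlib

set_option autoImplicit false

open Cardinal Set Order

namespace Pool.Agent.Lib.MP_1067ad_gt.PU

universe u v

/-- Transfinite recursion with an invariant. -/
theorem exists_rec {I : Type u} {Y : Type v} [LinearOrder I] [WellFoundedLT I] [Nonempty Y]
    (P : I → Y → Prop) (Q : I → Y → I → Y → Prop)
    (step : ∀ (i : I) (g : I → Y), (∀ j < i, P j (g j)) →
      (∀ j < i, ∀ k < j, Q k (g k) j (g j)) →
      ∃ y, P i y ∧ ∀ j < i, Q j (g j) i y) :
    ∃ f : I → Y, (∀ i, P i (f i)) ∧ ∀ i, ∀ j < i, Q j (f j) i (f i) := by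
  classical
  let G : (i : I) → ((j : I) → j < i → Y) → Y := fun i g =>
    if h : ∃ y, P i y ∧ ∀ j (hj : j < i), Q j (g j hj) i y then h.choose
    else Classical.arbitrary Y
  let f : I → Y := (wellFounded_lt (α := I)).fix G
  have hf : ∀ i, f i = G i (fun j _ => f j) := fun i => WellFounded.fix_eq _ G i
  have key : ∀ i, P i (f i) ∧ ∀ j < i, Q j (f j) i (f i) := by
    intro i
    induction i using WellFoundedLT.induction with
    | ind i ih =>
      have h : ∃ y, P i y ∧ ∀ j (_ : j < i), Q j (f j) i y :=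
        step i f (fun j hj => (ih j hj).1) (fun j hj k hk => (ih j hj).2 k hk)
      have e : f i = h.choose := by
        rw [hf i]
        simp only [G]
        rw [dif_pos h]
      rw [e]
      exact h.choose_spec
  exact ⟨f, fun i => (key i).1, fun i => (key i).2⟩

/-- A maximal well-ordered chain for an irreflexive relation. -/
theorem exists_maximal_chain {Y : Type u} [Nonempty Y] (P : Y → Prop) (Q : Y → Y → Prop)
    (hirr : ∀ y, P y → ¬ Q y y) :
    ∃ (W : Type u) (_ : LinearOrder W) (_ : WellFoundedLT W) (g : W → Y),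
      (∀ w, P (g w)) ∧ (∀ w, ∀ w' < w, Q (g w') (g w)) ∧ ¬ ∃ y, P y ∧ ∀ w, Q (g w) y := by
  by_contra hcon
  push Not at hcon
  obtain ⟨f, hf1, hf2⟩ := exists_rec (I := (succ #Y).ord.ToType) (Y := Y) (fun _ y => P y)
    (fun _ y _ y' => Q y y') (by
      intro i g h1 h2
      obtain ⟨y, hy1, hy2⟩ := hcon (Iio i) inferInstance inferInstance (fun w => g w)
        (fun w => h1 w w.2) (fun w w' hw => h2 w w.2 w' hw)
      exact ⟨y, hy1, fun j hj => hy2 ⟨j, hj⟩⟩)
  have hinj : Function.Injective f := by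
    intro a b hab
    rcases lt_trichotomy a b with h | h | h
    · have := hf2 b a h
      rw [hab] at this
      exact absurd this (hirr _ (hf1 b))
    · exact h
    · have := hf2 a b h
      rw [hab] at this
      exact absurd this (hirr _ (hf1 b))
  have h1 : #((succ #Y).ord.ToType) ≤ #Y := mk_le_of_injective hinj
  rw [mk_ord_toType] at h1
  exact absurd (lt_succ #Y) (not_lt.2 h1)

section basic

variable {A : Type u}

theorem small_union (hA : ℵ₀ ≤ #A) {s t : Set A} (hs : #s < #A) (ht : #t < #A) :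
    #(s ∪ t : Set A) < #A :=
  (mk_union_le s t).trans_lt (add_lt_of_lt hA hs ht)

theorem small_mono {s t : Set A} (h : s ⊆ t) (ht : #t < #A) : #s < #A :=
  (mk_le_mk_of_subset h).trans_lt ht

theorem small_iUnion (hA : ℵ₀ ≤ #A) {ι : Type u} (hι : #ι < (#A).ord.cof) (s : ι → Set A)
    (hs : ∀ k, #(s k) < #A) : #(⋃ k, s k : Set A) < #A := by
  have h1 : #(⋃ k, s k : Set A) ≤ sum fun k => #(s k) := mk_iUnion_le_sum_mk
  have h2 : (sum fun k => #(s k)) ≤ #ι * ⨆ k, #(s k) := sum_le_mk_mul_iSup _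
  have h3 : (⨆ k, #(s k)) < #A := iSup_lt_of_lt_cof_ord hι hs
  have h4 : #ι < #A := hι.trans_le (Ordinal.cof_ord_le _)
  exact (h1.trans h2).trans_lt (mul_lt_of_lt hA h4 h3)

theorem iUnion_le {ι : Type u} {a : Cardinal.{u}} (ha : ℵ₀ ≤ a) (hι : #ι ≤ a) (s : ι → Set A)
    (hs : ∀ k, #(s k) ≤ a) : #(⋃ k, s k : Set A) ≤ a := by
  have h1 : #(⋃ k, s k : Set A) ≤ sum fun k => #(s k) := mk_iUnion_le_sum_mk
  have h2 : (sum fun k => #(s k)) ≤ #ι * ⨆ k, #(s k) := sum_le_mk_mul_iSup _
  have h3 : (⨆ k, #(s k)) ≤ a := ciSup_le' hs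
  calc #(⋃ k, s k : Set A) ≤ #ι * ⨆ k, #(s k) := h1.trans h2
    _ ≤ a * a := mul_le_mul' hι h3
    _ = a := mul_eq_self ha

end basic

/-- The auxiliary data: a well-order `I` of type the cofinality of `#A`, a cofinal monotone family of
cardinals below `#A` and a corresponding filtration of `A`. -/
structure Setup (A I : Type u) [LinearOrder I] [WellFoundedLT I] where
  al : I → Cardinal.{u}
  rk : A → I
  hA : ℵ₀ ≤ #A
  mkI : #I = (#A).ord.cof
  infI : ℵ₀ ≤ #I
  bdd : ∀ X : Set I, #X < #I → ∃ j, ∀ i ∈ X, i < j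
  iic : ∀ i : I, #(Iic i) < #I
  mono : Monotone al
  lt : ∀ i, al i < #A
  ge : ∀ i, #I ≤ al i
  cofinal : ∀ b < #A, ∃ i, b < al i
  rk_le : ∀ i, #{x : A | rk x ≤ i} ≤ al i

theorem exists_setup (A : Type u) (hA : ℵ₀ ≤ #A) (hs : ¬ (#A).IsRegular) :
    ∃ (I : Type u) (_ : LinearOrder I) (_ : WellFoundedLT I), Nonempty (Setup A I) := by
  have hsing : (#A).IsSingular := IsSingular.of_not_isRegular hA hs
  have hκ : (#A).ord.cof < #A := hsing.cof_ord_lt
  let I := (#A).ord.cof.ord.ToType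
  let B := (#A).ord.ToType
  have hmkI : #I = (#A).ord.cof := mk_ord_toType _
  have hmkB : #B = #A := mk_ord_toType _
  have hinf : ℵ₀ ≤ (#A).ord.cof := by
    rw [Ordinal.aleph0_le_cof_iff, Ordinal.one_lt_cof_iff]
    exact isSuccLimit_ord hA
  have hcofI : Order.cof I = #I := by
    rw [hmkI]
    show Order.cof ((#A).ord.cof.ord.ToType) = _
    rw [Ordinal.cof_toType, Ordinal.cof_ord_cof]
  have hcofB : Order.cof B = #I := by
    rw [hmkI]
    show Order.cof ((#A).ord.ToType) = _
    rw [Ordinal.cof_toType]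
  obtain ⟨s, hs1, hs2⟩ := Order.exists_cof_eq B
  have e : Nonempty (I ≃ s) := by
    rw [← Cardinal.eq, hs2, hcofB]
  obtain ⟨e⟩ := e
  have e2 : Nonempty (A ≃ B) := by
    rw [← Cardinal.eq, hmkB]
  obtain ⟨e2⟩ := e2
  have hiic : ∀ i : I, #(Iic i) < #I := by
    intro i
    have h1 : #(Iio i) < #I := by
      rw [hmkI]
      exact mk_Iio_toType_ord_lt i
    have h2 : Iic i = insert i (Iio i) := by
      ext x; simp [le_iff_eq_or_lt]
    rw [h2]
    refine (mk_insert_le).trans_lt ?_
    exact add_lt_of_lt (hmkI ▸ hinf) h1 (one_lt_aleph0.trans_le (hmkI ▸ hinf))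
  have hIicB : ∀ b : B, #(Iic b) < #A := by
    intro b
    have h1 : #(Iio b) < #A := mk_Iio_toType_ord_lt b
    have h2 : Iic b = insert b (Iio b) := by
      ext x; simp [le_iff_eq_or_lt]
    rw [h2]
    refine (mk_insert_le).trans_lt ?_
    exact add_lt_of_lt hA h1 (one_lt_aleph0.trans_le hA)
  let U : I → Set B := fun i => ⋃ j : Iic i, Iic (e j : B)
  have hU : ∀ i, #(U i) < #A := by
    intro i
    rw [← hmkB]
    apply small_iUnion (A := B) (hmkB ▸ hA)
    · rw [hmkB]; exact (hiic i).trans_eq hmkI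
    · intro k; rw [hmkB]; exact hIicB _
  have hUmono : Monotone U := by
    intro i j hij x hx
    simp only [U, mem_iUnion] at hx ⊢
    obtain ⟨k, hk⟩ := hx
    exact ⟨⟨k.1, k.2.trans hij⟩, hk⟩
  have hcov : ∀ b : B, ∃ i : I, b ≤ (e i : B) := by
    intro b
    obtain ⟨c, hc1, hc2⟩ := hs1 b
    exact ⟨e.symm ⟨c, hc1⟩, by simpa using hc2⟩
  choose r hr using hcov
  refine ⟨I, inferInstance, inferInstance, ⟨{
    al := fun i => max (#I) (#(U i))
    rk := fun x => r (e2 x)
    hA := hA
    mkI := hmkI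
    infI := hmkI ▸ hinf
    bdd := ?_
    iic := hiic
    mono := ?_
    lt := ?_
    ge := fun i => le_max_left _ _
    cofinal := ?_
    rk_le := ?_ }⟩⟩
  · intro X hX
    have : ¬ IsCofinal X := by
      intro h
      have := Order.cof_le h
      rw [hcofI] at this
      exact absurd hX (not_lt.2 this)
    exact not_isCofinal_iff.1 this
  · intro i j hij
    exact max_le_max le_rfl (mk_le_mk_of_subset (hUmono hij))
  · intro i
    exact max_lt (hmkI ▸ hκ) (hU i)
  · intro b hb
    by_contra hcon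
    push Not at hcon
    have hun : (⋃ i : I, Iic (e i : B)) = Set.univ := by
      rw [eq_univ_iff_forall]
      intro x
      rw [mem_iUnion]
      exact ⟨r x, hr x⟩
    have hle : #(⋃ i : I, Iic (e i : B) : Set B) ≤ max ℵ₀ (max (#I) b) := by
      apply iUnion_le (le_max_left _ _) ((le_max_left _ _).trans (le_max_right _ _))
      intro k
      have h1 : Iic (e k : B) ⊆ U k := by
        intro x hx
        simp only [U, mem_iUnion]
        exact ⟨⟨k, le_refl k⟩, hx⟩
      exact ((mk_le_mk_of_subset h1).trans ((le_max_right _ _).trans (hcon k))).trans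
        ((le_max_right _ _).trans (le_max_right _ _))
    rw [hun, mk_univ, hmkB] at hle
    have : max ℵ₀ (max (#I) b) < #A := by
      refine max_lt ?_ (max_lt (hmkI ▸ hκ) hb)
      exact hinf.trans_lt hκ
    exact absurd this (not_lt.2 hle)
  · intro i
    have h1 : #{x : A | r (e2 x) ≤ i} ≤ #(U i) := by
      apply mk_le_of_injective (f := fun x : {x : A | r (e2 x) ≤ i} =>
        (⟨e2 x.1, by
          simp only [U, mem_iUnion]
          exact ⟨⟨r (e2 x.1), x.2⟩, hr _⟩⟩ : U i))
      intro x y hxy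
      simpa [Subtype.ext_iff] using hxy
    exact h1.trans (le_max_right _ _)

end Pool.Agent.Lib.MP_1067ad_gt.PU
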